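import Pool.Agent.H.MP_73c876_an.C

set_option autoImplicit false

open MeasureTheory Filter Set

namespace Pool.Agent.Results.MP_73c876_an.No

/-- under-recurrent set -/
def URSet {X : Type} [MeasurableSpace X] (μ : Measure X) (T : X → X) (A : Set X) : Prop :=
  MeasurableSet A ∧ 0 < μ.real A ∧ μ.real A < 1 ∧
    ∀ n ≥ 1, μ.real (A ∩ T^[n] ⁻¹' A) ≤ μ.real A ^ 2

/-- under-recurrent function -/
def URFun {X : Type} [MeasurableSpace X] (μ : Measure X) (T : X → X) (f : X → ℝ) : Prop :=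
  MemLp f 2 μ ∧ (¬∃ c, ∀ᵐ x ∂μ, f x = c) ∧
    ∀ n ≥ 1, ∫ x, f x * f (T^[n] x) ∂μ ≤ (∫ x, f x ∂μ) ^ 2

open Pool.Agent.H.MP_73c876_an

def c (u : ZMod 6) : ℤ := ![2, 1, -1, -2, -1, 1] u

theorem iη (F : ZMod 6 → ℝ) : ∫ y, F y ∂η = (∑ y, F y) / 6 := by
  simp [η, integral_smul_measure, div_eq_inv_mul]

theorem result : ∃ (X : Type) (_ : MeasurableSpace X) (_ : StandardBorelSpace X) (μ : Measure X)
    (T : X → X), IsProbabilityMeasure μ ∧ Ergodic T μ ∧
      (∃ f : X → ℝ, URFun μ T f ∧ ∀ x, 0 ≤ f x ∧ f x ≤ 1) ∧ ¬∃ A, URSet μ T A := by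
  have b : ∀ u, -2 ≤ c u ∧ c u ≤ 2 := by decide
  have b' : ∀ u, 0 ≤ 1 / 2 + (c u : ℝ) / 4 ∧ 1 / 2 + (c u : ℝ) / 4 ≤ 1 := fun u => by
    have h1 : (-2 : ℝ) ≤ c u := by exact_mod_cast (b u).1
    have h2 : (c u : ℝ) ≤ 2 := by exact_mod_cast (b u).2
    constructor <;> linarith
  have s0 : ∀ u, ∑ y, (c (y + u) : ℝ) = 0 := fun u => by
    exact_mod_cast (by decide : ∀ u, ∑ y, c (y + u) = 0) u
  have s1 : ∀ u, ∑ y, (c y : ℝ) * c (y + u) = 6 * c u := fun u => by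
    exact_mod_cast (by decide : ∀ u, ∑ y, c y * c (y + u) = 6 * c u) u
  have s2 : ∀ K u, ∑ t, (c (u + w K * t) : ℝ) = 0 := fun K u => by
    unfold w
    split_ifs
    · exact_mod_cast (by decide : ∀ u, ∑ t, c (u + 3 * t) = 0) u
    · exact_mod_cast (by decide : ∀ u, ∑ t, c (u + 2 * t) = 0) u
  have s3 : ∑ y, (c y : ℝ) = 0 := by simpa using s0 0
  have m : Measurable fun z : G × ZMod 6 => 1 / 2 + (c z.2 : ℝ) / 4 :=
    (measurable_of_countable fun u => 1 / 2 + (c u : ℝ) / 4).comp measurable_snd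
  have l : MemLp (fun z : G × ZMod 6 => 1 / 2 + (c z.2 : ℝ) / 4) 2 ν :=
    MemLp.of_bound m.aestronglyMeasurable 1 (ae_of_all _ fun z => by
      rw [Real.norm_of_nonneg (b' _).1]; exact (b' _).2)
  have : PolishSpace G := (AddSubgroup.isClosed_topologicalClosure _).polishSpace
  refine ⟨G × ZMod 6, inferInstance, inferInstance, ν, T, inferInstance, T_erg,
    ⟨fun z => 1 / 2 + (c z.2 : ℝ) / 4, ⟨l, ?_, fun n hn => ?_⟩, fun z => b' _⟩,
    fun ⟨A, h1, h2, h3, h4⟩ => noset h1 h2 h3 h4⟩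
  · rintro ⟨a, ha⟩
    obtain ⟨z, h1, h2⟩ := (ha.and ((R_mp 3).quasiMeasurePreserving.ae ha)).exists
    have e1 : c (z.2 + 3) = c z.2 := by
      have : (c (z.2 + 3) : ℝ) = c z.2 := by simp only [R] at h2; linarith
      exact_mod_cast this
    exact (by decide : ∀ u, c (u + 3) ≠ c u) _ e1
  have i : Integrable (fun z : G × ZMod 6 =>
      (1 / 2 + (c z.2 : ℝ) / 4) * (1 / 2 + (c (T^[n] z).2 : ℝ) / 4)) ν :=
    l.integrable_mul (l.comp_measurePreserving (T_mp.iterate n))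
  rw [ν] at i ⊢
  rw [integral_prod _ i, integral_prod _ (l.integrable one_le_two)]
  have e : ∀ u, ∑ y, (1 / 2 + (c y : ℝ) / 4) * (1 / 2 + (c (y + u) : ℝ) / 4) =
      3 / 2 + 3 / 8 * c u := fun u => by
    rw [Finset.sum_congr rfl fun y _ => show (1 / 2 + (c y : ℝ) / 4) * (1 / 2 + c (y + u) / 4) =
      1 / 4 + 1 / 8 * c y + 1 / 8 * c (y + u) + 1 / 16 * (c y * c (y + u)) by ring]
    simp only [Finset.sum_add_distrib, ← Finset.mul_sum, s0, s1, s3]
    simp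
    ring
  have i2 : Integrable (fun x => (c (Φ n x) : ℝ)) μ := Integrable.of_bound
    ((measurable_of_countable fun u => (c u : ℝ)).comp (Φ_meas n)).aestronglyMeasurable _
    (ae_of_all _ fun x => norm_le_pi_norm (fun u => (c u : ℝ)) _)
  simp only [iη, T_iter, e, Finset.sum_add_distrib, ← Finset.sum_div, s3]
  rw [integral_div, integral_add (integrable_const _) (i2.const_mul _), integral_const_mul,
    corr (fun u => (c u : ℝ)) s2 hn]
  simp
  norm_num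

end Pool.Agent.Results.MP_73c876_an.No
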